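import Pool.Agent.H622R2.Ckt.Defs

/-!
# Circuits of linear size relative to an oracle

(helper249)
-/

set_option autoImplicit false

namespace Pool.Agent.H249R3.LinC

open Pool.Agent.NPC Pool.Agent.H620R2.Gauge Pool.Agent.H622R2.Ckt

/-- Relative to `A`, the language `L` has circuits of linear size: for some constant `c` and all
`n ≥ 1` some circuit with gates for `A` of size at most `c n` decides `L` on the inputs of
length `n`. -/
def LinSize (A : Oracle) (L : Set (List Bool)) : Prop :=
  ∃ c : ℕ, ∀ n : ℕ, 1 ≤ n → ∃ C : Circuit, C.size ≤ c * n ∧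
    ∀ x : List Bool, x.length = n → (x ∈ L ↔ C.eval A x = true)

end Pool.Agent.H249R3.LinC
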