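import Pool.Agent.H249R3.LinC.Defs
import Pool.Agent.H249R3.Ckt.Null
import Pool.Agent.H620R2.Gauge.Upper

/-!
# Few oracles give all languages in polynomial time linear circuits

(helper249)
-/

set_option autoImplicit false

namespace Pool.Agent.H249R3.LinC

open Pool.Agent.NPC Pool.Agent.H620R2.Gauge Pool.Agent.H622R2.Ckt Finset Filter H568R2
open Pool.Agent.H249R3.Ckt (card_det)

/-- the padded string -/
def pad (w x : List Bool) : List Bool := x ++ List.replicate (w.length * x.length) false

/-- the test language -/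
def LQ (A : Oracle) : Set (List Bool) := {y | A (pad (unpair y).1 (unpair y).2) = true}

theorem LQ_isP (A : Oracle) : IsP A (LQ A) := by
  apply isP_of_reduces
  have h1 : Poly (fun y => (unpair y).1) := Poly.fst poly_unpair
  have h2 : Poly (fun y => (unpair y).2) := Poly.snd poly_unpair
  have h3 : UPoly (fun y : List Bool => (unpair y).1.length * (unpair y).2.length) :=
    UPoly.mul (UPoly.length h1) (UPoly.length h2)
  have h4 : Poly (fun y : List Bool =>
      List.replicate ((unpair y).1.length * (unpair y).2.length) false) :=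
    (NPC.Poly.map (F := fun _ _ => false) h3 (NPC.Poly.const false)).congr fun x => by simp
  refine ⟨fun y => pad (unpair y).1 (unpair y).2,
    Pool.Agent.H622R2.polyTime_of_poly_list (Poly.append h2 h4), fun y => Iff.rfl⟩

/-- The event: some small circuit decides the test language for the padded inputs. -/
def EvP (c m N : ℕ) (a : Fin N → Bool) : Prop :=
  ∃ C : Circuit, C.size ≤ c * (2 * c + 1 + m) ∧ ∀ x : List Bool, x.length = m →
    (orc N a (x ++ List.replicate (c * m) false) =
      C.eval (orc N a) (pairBits (List.replicate c false) x))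

open Classical in
theorem card_circuitP (u : List Bool) (n s N : ℕ) (hN : 2 ^ (n + s + 1) ≤ N) (C : Circuit)
    (hC : C.size ≤ n + s) :
    (univ.filter (fun a : Fin N → Bool => ∀ x : List Bool, x.length = n →
      (orc N a (x ++ List.replicate s false) = C.eval (orc N a) (pairBits u x)))).card *
        2 ^ 2 ^ n ≤ 2 ^ N := by
  have hlt : ∀ x : List Bool, x.length = n → idx (x ++ List.replicate s false) < N := by
    intro x hx
    have h1 := idx_lt (x ++ List.replicate s false)
    rw [List.length_append, List.length_replicate, hx] at h1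
    omega
  let pos : (Fin n → Bool) → Fin N := fun v =>
    ⟨idx (List.ofFn v ++ List.replicate s false), hlt _ List.length_ofFn⟩
  have hinj : Function.Injective pos := by
    intro v v' h
    have h1 : idx (List.ofFn v ++ List.replicate s false) =
        idx (List.ofFn v' ++ List.replicate s false) := congrArg Fin.val h
    have h2 := congrArg str h1
    rw [str_idx, str_idx] at h2
    exact List.ofFn_injective (List.append_cancel_right h2)
  let P : Finset (Fin N) := univ.image pos
  have hP : P.card = 2 ^ n := by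
    rw [Finset.card_image_of_injective _ hinj, Finset.card_univ]
    simp
  have h1 := card_det P (univ.filter (fun a : Fin N → Bool => ∀ x : List Bool, x.length = n →
      (orc N a (x ++ List.replicate s false) = C.eval (orc N a) (pairBits u x)))) ?_
  · rw [hP, Fintype.card_fin] at h1
    exact h1
  · intro a ha a' ha' h
    rw [Finset.mem_filter] at ha ha'
    have hag : ∀ y : List Bool, y.length < C.size → orc N a y = orc N a' y := by
      intro y hy
      unfold orc
      split_ifs with hlt'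
      · apply h
        intro hmem
        obtain ⟨v, -, hv⟩ := Finset.mem_image.1 hmem
        have h2 : idx (List.ofFn v ++ List.replicate s false) = idx y := congrArg Fin.val hv
        have h3 := congrArg str h2
        rw [str_idx, str_idx] at h3
        have h4 := congrArg List.length h3
        rw [List.length_append, List.length_replicate, List.length_ofFn] at h4
        omega
      · rfl
    funext i
    by_cases hi : i ∈ P
    · obtain ⟨v, -, rfl⟩ := Finset.mem_image.1 hi
      have h2 := ha.2 (List.ofFn v) List.length_ofFn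
      have h3 := ha'.2 (List.ofFn v) List.length_ofFn
      rw [eval_local C (orc N a) (orc N a') hag, ← h3] at h2
      unfold orc at h2
      rw [dif_pos (hlt _ List.length_ofFn), dif_pos (hlt _ List.length_ofFn)] at h2
      exact h2
    · exact h i hi

open Classical in
theorem evP_small (c m N : ℕ) (hN : 2 ^ (m + c * m + 1) ≤ N) (hcm : c * (2 * c + 1) ≤ m) :
    Ex unif (fun a : Fin N → Bool => if EvP c m N a then (1 : ℝ) else 0) ≤
      nC (2 * c + 1 + m) (c * (2 * c + 1 + m)) * (1 / 2) ^ 2 ^ m := by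
  set n := 2 * c + 1 + m with hn
  have hk : c * n ≤ m + c * m := by
    rw [hn]
    have : c * (2 * c + 1 + m) = c * (2 * c + 1) + c * m := by ring
    omega
  obtain ⟨F, hF1, hF2⟩ := exists_circuits n (c * n)
  have h1 := card_of_Ex (fun a : Fin N → Bool => EvP c m N a)
  rw [← h1]
  have h2 : (univ.filter (fun a : Fin N → Bool => EvP c m N a)).card * 2 ^ 2 ^ m ≤
      F.card * 2 ^ N := by
    have h3 : univ.filter (fun a : Fin N → Bool => EvP c m N a) ⊆
        (F.filter (fun C => C.size ≤ c * n)).biUnion (fun C =>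
          univ.filter (fun a : Fin N → Bool => ∀ x : List Bool, x.length = m →
            (orc N a (x ++ List.replicate (c * m) false) =
              C.eval (orc N a) (pairBits (List.replicate c false) x)))) := by
      intro a ha
      obtain ⟨C, hC1, hC2⟩ := (Finset.mem_filter.1 ha).2
      obtain ⟨C', hC'1, hC'2, hC'3⟩ := hF2 C hC1
      refine Finset.mem_biUnion.2 ⟨C', Finset.mem_filter.2 ⟨hC'1, hC'2⟩,
        Finset.mem_filter.2 ⟨Finset.mem_univ _, fun x hx => ?_⟩⟩
      rw [hC2 x hx, hC'3 _ _ (by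
        rw [Pool.Agent.H620R2.Gauge.length_pairBits, List.length_replicate, hx, hn])]
    calc (univ.filter (fun a : Fin N → Bool => EvP c m N a)).card * 2 ^ 2 ^ m
        ≤ (∑ C ∈ F.filter (fun C => C.size ≤ c * n),
          (univ.filter (fun a : Fin N → Bool => ∀ x : List Bool, x.length = m →
            (orc N a (x ++ List.replicate (c * m) false) =
              C.eval (orc N a) (pairBits (List.replicate c false) x)))).card) * 2 ^ 2 ^ m :=
          Nat.mul_le_mul_right _ ((Finset.card_le_card h3).trans Finset.card_biUnion_le)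
      _ = ∑ C ∈ F.filter (fun C => C.size ≤ c * n),
          (univ.filter (fun a : Fin N → Bool => ∀ x : List Bool, x.length = m →
            (orc N a (x ++ List.replicate (c * m) false) =
              C.eval (orc N a) (pairBits (List.replicate c false) x)))).card * 2 ^ 2 ^ m := by
          rw [Finset.sum_mul]
      _ ≤ ∑ _C ∈ F.filter (fun C => C.size ≤ c * n), 2 ^ N :=
          Finset.sum_le_sum fun C hC => card_circuitP _ m _ N hN C
            ((Finset.mem_filter.1 hC).2.trans hk)
      _ ≤ F.card * 2 ^ N := by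
          rw [Finset.sum_const, smul_eq_mul]
          exact Nat.mul_le_mul_right _ (Finset.card_filter_le _ _)
  have h4 : ((univ.filter (fun a : Fin N → Bool => EvP c m N a)).card : ℝ) * 2 ^ 2 ^ m ≤
      nC n (c * n) * 2 ^ N := by
    have h5 : (univ.filter (fun a : Fin N → Bool => EvP c m N a)).card * 2 ^ 2 ^ m ≤
        nC n (c * n) * 2 ^ N := h2.trans (Nat.mul_le_mul_right _ hF1)
    exact_mod_cast h5
  rw [Real.rpow_neg (by norm_num), Real.rpow_natCast, ← div_eq_mul_inv,
    div_le_iff₀ (by positivity)]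
  have h6 : ((1 : ℝ) / 2) ^ 2 ^ m * 2 ^ 2 ^ m = 1 := by
    rw [← mul_pow]; norm_num
  calc ((univ.filter (fun a : Fin N → Bool => EvP c m N a)).card : ℝ)
      = ((univ.filter (fun a : Fin N → Bool => EvP c m N a)).card * 2 ^ 2 ^ m) *
          (1 / 2) ^ 2 ^ m := by
        rw [mul_assoc, mul_comm ((2 : ℝ) ^ 2 ^ m), h6, mul_one]
    _ ≤ (nC n (c * n) * 2 ^ N) * (1 / 2) ^ 2 ^ m :=
        mul_le_mul_of_nonneg_right h4 (by positivity)
    _ = nC n (c * n) * (1 / 2) ^ 2 ^ m * 2 ^ N := by ring

/-- the conditions on the length -/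
def Fine (c m : ℕ) : Prop :=
  6 ≤ m ∧ c * (2 * c + 1) ≤ m ∧
    (2 * c + 1 + m) + c * (2 * c + 1 + m) + 8 ≤ 2 ^ m ∧
    4 * (m * (4 * (c * (2 * c + 1 + m)) + 4)) ≤ 2 ^ m

theorem fine_ev (c : ℕ) : ∀ᶠ m : ℕ in atTop, Fine c m := by
  have h1 := Pool.Agent.H622R2.Exp.E0.poly_le
    ((Polynomial.X + Polynomial.C (2 * c + 1)) +
      Polynomial.C c * (Polynomial.X + Polynomial.C (2 * c + 1)) + Polynomial.C 8) 1
  have h2 := Pool.Agent.H622R2.Exp.E0.poly_le
    (Polynomial.X * (Polynomial.C 4 * (Polynomial.C c *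
      (Polynomial.X + Polynomial.C (2 * c + 1))) + Polynomial.C 4)) 4
  filter_upwards [h1, h2, eventually_ge_atTop 6, eventually_ge_atTop (c * (2 * c + 1))]
    with m h1 h2 h3 h4
  simp only [Polynomial.eval_add, Polynomial.eval_mul, Polynomial.eval_C,
    Polynomial.eval_X, one_mul] at h1 h2
  refine ⟨h3, h4, ?_, ?_⟩
  · have e : m + (2 * c + 1) = 2 * c + 1 + m := by ring
    rw [e] at h1
    exact h1
  · have e : m + (2 * c + 1) = 2 * c + 1 + m := by ring
    rw [e] at h2
    exact h2

theorem nC_fine {c m : ℕ} (h : Fine c m) :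
    nC (2 * c + 1 + m) (c * (2 * c + 1 + m)) ≤ 2 ^ 2 ^ (m - 2) := by
  obtain ⟨h1, h2, h3, h4⟩ := h
  unfold nC
  calc (2 * c + 1 + m + c * (2 * c + 1 + m) + 8) ^ (4 * (c * (2 * c + 1 + m)) + 4)
      ≤ (2 ^ m) ^ (4 * (c * (2 * c + 1 + m)) + 4) := Nat.pow_le_pow_left h3 _
    _ = 2 ^ (m * (4 * (c * (2 * c + 1 + m)) + 4)) := by rw [← pow_mul]
    _ ≤ 2 ^ 2 ^ (m - 2) := by
        apply Nat.pow_le_pow_right (by norm_num)
        have h5 : 2 ^ m = 4 * 2 ^ (m - 2) := by
          have : m = (m - 2) + 2 := by omega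
          rw [this, pow_add]
          simp
          ring
        omega

theorem null_c {f : ℕ → ℝ} (c : ℕ)
    (hf : ∀ δ : ℝ, 0 < δ → ∃ᶠ N : ℕ in atTop, f N ≤ (N : ℝ) ^ δ) :
    Null f {A | ∀ n : ℕ, 1 ≤ n → ∃ C : Circuit, C.size ≤ c * n ∧
      ∀ x : List Bool, x.length = n → (x ∈ LQ A ↔ C.eval A x = true)} := by
  classical
  intro η hη
  obtain ⟨m₁, hm₁⟩ := exists_pow_lt_of_lt_one hη (show (1 / 2 : ℝ) < 1 by norm_num)
  obtain ⟨m₂, hm₂⟩ := Filter.eventually_atTop.1 (fine_ev c)
  set m₀ := max m₁ m₂ with hm₀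
  set q := c + 1 with hq
  obtain ⟨N, hN1, hN2⟩ := ((hf (1 / (2 * q)) (by positivity)).and_eventually
    (eventually_ge_atTop (2 ^ (q * m₀ + 1)))).exists
  set a := Nat.log 2 N with ha
  have hN0 : N ≠ 0 := by
    have : 0 < 2 ^ (q * m₀ + 1) := by positivity
    omega
  have ha1 : q * m₀ + 1 ≤ a := Nat.le_log_of_pow_le (by norm_num) hN2
  have ha2 : 2 ^ a ≤ N := Nat.pow_log_le_self 2 hN0
  have ha3 : N < 2 ^ (a + 1) := Nat.lt_pow_succ_log_self (by norm_num) N
  have hq0 : 0 < q := by omega
  set m := (a - 1) / q with hm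
  have hmm₀ : m₀ ≤ m := by
    rw [hm, Nat.le_div_iff_mul_le hq0, mul_comm]
    omega
  have hm1 : q * m ≤ a - 1 := Nat.mul_div_le (a - 1) q
  have hm2 : a - 1 < q * (m + 1) := by
    have := Nat.lt_mul_div_succ (a - 1) hq0
    rwa [← hm] at this
  have hfine : Fine c m := hm₂ m ((le_max_right _ _).trans hmm₀)
  have hqm : q * m = m + c * m := by rw [hq]; ring
  have hNm : 2 ^ (m + c * m + 1) ≤ N :=
    (Nat.pow_le_pow_right (by norm_num) (by omega)).trans ha2
  obtain ⟨h6, hcm, h8, h9⟩ := id hfine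
  refine cover_of_event (EvP c m N) _ ?_ f η ?_
  · intro A hA
    set n := 2 * c + 1 + m with hn
    obtain ⟨C, hC1, hC2⟩ := hA n (by omega)
    have hk : c * n ≤ m + c * m := by
      rw [hn]
      have : c * (2 * c + 1 + m) = c * (2 * c + 1) + c * m := by ring
      omega
    have hid : ∀ y : List Bool, y.length ≤ m + c * m → orc N (pre N A) y = A y := by
      intro y hy
      apply orc_pre
      have h2 := idx_lt y
      have h3 : 2 ^ (y.length + 1) ≤ 2 ^ (m + c * m + 1) :=
        Nat.pow_le_pow_right (by norm_num) (by omega)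
      omega
    refine ⟨C, hC1, fun x hx => ?_⟩
    rw [hid _ (by rw [List.length_append, List.length_replicate, hx]),
      eval_local C (orc N (pre N A)) A (fun y hy => hid y (by omega)) _]
    have h2 := hC2 (pairBits (List.replicate c false) x) (by
      rw [Pool.Agent.H620R2.Gauge.length_pairBits, List.length_replicate, hx])
    unfold LQ pad at h2
    rw [Set.mem_ofPred_eq, unpair_pairBits] at h2
    simp only [List.length_replicate, hx] at h2
    rw [Bool.eq_iff_iff]
    exact h2
  · have hev := evP_small c m N hNm hcm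
    have hnC : ((nC (2 * c + 1 + m) (c * (2 * c + 1 + m)) : ℕ) : ℝ) ≤ 2 ^ 2 ^ (m - 2) := by
      exact_mod_cast nC_fine hfine
    have hg : f N ≤ (2 : ℝ) ^ (m - 2) := by
      refine hN1.trans ?_
      have h1 : (N : ℝ) ≤ 2 ^ (q * (m + 1) + 1) := by
        have : N ≤ 2 ^ (q * (m + 1) + 1) :=
          ha3.le.trans (Nat.pow_le_pow_right (by norm_num) (by omega))
        exact_mod_cast this
      have hq1 : (1 : ℝ) ≤ q := by exact_mod_cast hq0
      calc (N : ℝ) ^ (1 / (2 * (q : ℝ))) ≤ ((2 : ℝ) ^ (q * (m + 1) + 1)) ^ (1 / (2 * (q : ℝ))) :=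
            Real.rpow_le_rpow (by positivity) h1 (by positivity)
        _ = (2 : ℝ) ^ ((((q * (m + 1) + 1 : ℕ)) : ℝ) * (1 / (2 * (q : ℝ)))) := by
            rw [← Real.rpow_natCast, ← Real.rpow_mul (by norm_num)]
        _ ≤ (2 : ℝ) ^ (((m - 2 : ℕ)) : ℝ) := by
            apply Real.rpow_le_rpow_of_exponent_le (by norm_num)
            rw [Nat.cast_sub (by omega), mul_one_div, div_le_iff₀ (by positivity)]
            have hm6 : (6 : ℝ) ≤ m := by exact_mod_cast h6
            push_cast
            nlinarith [mul_nonneg (by linarith : (0 : ℝ) ≤ (q : ℝ)) (by linarith : (0 : ℝ) ≤ (m : ℝ) - 6)]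
        _ = 2 ^ (m - 2) := by rw [Real.rpow_natCast]
    have hg2 : (2 : ℝ) ^ f N ≤ 2 ^ 2 ^ (m - 2) := by
      rw [← Real.rpow_natCast (2 : ℝ) (2 ^ (m - 2))]
      apply Real.rpow_le_rpow_of_exponent_le (by norm_num)
      push_cast
      exact hg
    have hpow : 2 ^ m = 2 ^ (m - 2) + 2 ^ (m - 2) + 2 ^ (m - 1) := by
      have h1 : 2 ^ (m - 1) = 2 * 2 ^ (m - 2) := by
        have : m - 1 = (m - 2) + 1 := by omega
        rw [this, pow_succ]; ring
      have h2 : 2 ^ m = 4 * 2 ^ (m - 2) := by
        have : m = (m - 2) + 2 := by omega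
        rw [this, pow_add]
        simp
        ring
      omega
    have hn1 : m₁ ≤ 2 ^ (m - 1) := by
      have h1 : m - 1 < 2 ^ (m - 1) := Nat.lt_two_pow_self
      have h2 : m₁ ≤ m := (le_max_left _ _).trans hmm₀
      omega
    calc Ex unif (fun a : Fin N → Bool => if EvP c m N a then (1 : ℝ) else 0) * 2 ^ f N
        ≤ (nC (2 * c + 1 + m) (c * (2 * c + 1 + m)) * (1 / 2) ^ 2 ^ m) * 2 ^ f N :=
          mul_le_mul_of_nonneg_right hev (by positivity)
      _ ≤ (2 ^ 2 ^ (m - 2) * (1 / 2) ^ 2 ^ m) * 2 ^ 2 ^ (m - 2) := by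
          apply mul_le_mul _ hg2 (by positivity) (by positivity)
          exact mul_le_mul_of_nonneg_right hnC (by positivity)
      _ = (1 / 2) ^ 2 ^ (m - 1) := by
          rw [hpow, pow_add (1 / 2 : ℝ), pow_add (1 / 2 : ℝ)]
          have h1 : (2 : ℝ) ^ 2 ^ (m - 2) * (1 / 2) ^ 2 ^ (m - 2) = 1 := by
            rw [← mul_pow]; norm_num
          calc _ = ((2 : ℝ) ^ 2 ^ (m - 2) * (1 / 2) ^ 2 ^ (m - 2)) *
                (2 ^ 2 ^ (m - 2) * (1 / 2) ^ 2 ^ (m - 2)) * (1 / 2) ^ 2 ^ (m - 1) := by ring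
            _ = _ := by rw [h1]; ring
      _ ≤ (1 / 2) ^ m₁ := pow_le_pow_of_le_one (by norm_num) (by norm_num) hn1
      _ ≤ η := hm₁.le

theorem null_lin {f : ℕ → ℝ}
    (hf : ∀ δ : ℝ, 0 < δ → ∃ᶠ N : ℕ in atTop, f N ≤ (N : ℝ) ^ δ) (O : Set Oracle)
    (hO : ∀ A ∈ O, ∀ L, IsP A L → LinSize A L) : Null f O := by
  refine (null_iUnion _ fun c => null_c c hf).mono fun A hA => ?_
  obtain ⟨c, hc⟩ := hO A hA _ (LQ_isP A)
  exact Set.mem_iUnion.2 ⟨c, hc⟩

end Pool.Agent.H249R3.LinC
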