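import Pool.Agent.H249R3.LinC.NonNull
import Pool.Agent.H249R3.LinC.Null
import Pool.Agent.H620R2.GaugeX.X12
import Pool.Agent.H620R2.Gauge2.Trans

/-!
# The threshold for circuits of linear size

(helper249)
-/

set_option autoImplicit false

namespace Pool.Agent.H249R3.LinC

open Pool.Agent.NPC Pool.Agent.H620R2.Gauge Pool.Agent.H622R2.Ckt Finset Filter
open Pool.Agent.H622R2.Exp (Lin InNTime)

/-- the verifier with the bound for the certificate -/
noncomputable def newV2 (V : List Bool → List Bool) (p : Polynomial ℕ) (y : List Bool) :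
    List Bool :=
  if (unpair y).1.length ≤ p.eval (unpair y).2.length then V y else []

theorem isFP_newV2 {A : Oracle} {V : List Bool → List Bool} (hV : IsFP A V)
    (p : Polynomial ℕ) : IsFP A (newV2 V p) := by
  have hf : Poly (fun y => (unpair y).1) := Poly.fst poly_unpair
  have hs : Poly (fun y => (unpair y).2) := Poly.snd poly_unpair
  have h3 : Poly (fun t : List Bool × List Bool × List Bool => (unpair t.1).1.length) :=
    Poly.length (hf.comp (Poly.fst Poly.id))
  have h4 : Poly (fun t : List Bool × List Bool × List Bool =>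
      p.eval (unpair t.1).2.length) :=
    (UPoly.eval (UPoly.length (hs.comp (Poly.fst Poly.id))) p).toPoly
  exact IsFP.seq (φ := fun t => t.1)
    (ψ := fun t => if (unpair t.1).1.length ≤ p.eval (unpair t.1).2.length then t.2.1 else [])
    hV hV (Poly.fst Poly.id)
    (Poly.ite (Poly.decide_le h3 h4) (Poly.fst (Poly.snd Poly.id)) (NPC.Poly.const []))

theorem exists_lin (p : Polynomial ℕ) : ∃ c : ℕ, ∀ n : ℕ, p.eval n ≤ 2 ^ (c * (n + 1)) := by
  obtain ⟨n₀, h₀⟩ := Filter.eventually_atTop.1 (Pool.Agent.H622R2.Exp.E0.poly_le p 1)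
  refine ⟨(∑ i ∈ Finset.range n₀, p.eval i) + 1, fun n => ?_⟩
  by_cases hn : n₀ ≤ n
  · have h1 := h₀ n hn
    rw [one_mul] at h1
    refine h1.trans (Nat.pow_le_pow_right (by norm_num) ?_)
    nlinarith [Nat.zero_le ((∑ i ∈ Finset.range n₀, p.eval i) * (n + 1))]
  · have h1 : p.eval n ≤ ∑ i ∈ Finset.range n₀, p.eval i :=
      Finset.single_le_sum (f := fun i => p.eval i) (fun _ _ => Nat.zero_le _)
        (Finset.mem_range.2 (by omega))
    refine h1.trans (Nat.lt_two_pow_self.le.trans (Nat.pow_le_pow_right (by norm_num) ?_))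
    nlinarith [Nat.zero_le ((∑ i ∈ Finset.range n₀, p.eval i) * n)]

theorem np_ne {A : Oracle} {L : Set (List Bool)} (h : IsNP A L) : InNTime Lin A L := by
  obtain ⟨V, p, hV, hL⟩ := h
  obtain ⟨c, hc⟩ := exists_lin p
  refine ⟨newV2 V p, isFP_newV2 hV p, _, ⟨c, rfl⟩, fun x => ?_⟩
  rw [hL x, Pool.Agent.H622R2.Exp.YAux.eval_lin]
  constructor
  · rintro ⟨w, hw, hV1⟩
    refine ⟨w, hw.trans (hc _), ?_⟩
    unfold newV2
    rw [unpair_pairBits, if_pos hw]
    exact hV1
  · rintro ⟨w, -, hV1⟩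
    unfold newV2 at hV1
    rw [unpair_pairBits] at hV1
    split_ifs at hV1 with h1
    exact ⟨w, h1, hV1⟩

theorem main_lin (f : ℕ → ℝ) (O : Set Oracle)
    (h1 : ∀ A : Oracle, (∀ L, InNTime Lin A L → LinSize A L) → A ∈ O)
    (h2 : ∀ A ∈ O, ∀ L, IsP A L → LinSize A L) :
    Null f O ↔ ∀ δ : ℝ, 0 < δ → ∃ᶠ N : ℕ in atTop, f N ≤ (N : ℝ) ^ δ := by
  constructor
  · intro hn δ hδ
    by_contra hcon
    rw [Filter.not_frequently] at hcon
    exact not_null_lin hδ (hcon.mono fun N h => not_le.1 h) O h1 hn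
  · intro hf
    exact null_lin hf O h2

theorem main_np (f : ℕ → ℝ) :
    Null f {A : Oracle | ∀ L, IsNP A L → LinSize A L} ↔
      ∀ δ : ℝ, 0 < δ → ∃ᶠ N : ℕ in atTop, f N ≤ (N : ℝ) ^ δ :=
  main_lin f _ (fun _ hA L hL => hA L (np_ne hL)) fun _ hA L hL => hA L hL.isNP

end Pool.Agent.H249R3.LinC
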