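import Pool.Agent.H249R3.LinC.Defs
import Pool.Agent.H249R3.Ckt.NonNull
import Pool.Agent.H620R2.GaugeX.X4
import Pool.Agent.H620R2.GaugeX.X9

/-!
# Many oracles give all languages in nondeterministic exponential time linear circuits

(helper249)
-/

set_option autoImplicit false

namespace Pool.Agent.H249R3.LinC

open Pool.Agent.NPC Pool.Agent.H620R2.Gauge Pool.Agent.H622R2.Ckt Finset Filter
open Pool.Agent.H622R2.Exp (Lin InNTime not_null_ev)
open Pool.Agent.H943R6.MC (askC size_askC eval_askC)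
open Pool.Agent.H249R3.Ckt (cdn length_cdn count_le pp hl_pp me)

/-- the padding -/
noncomputable def RR (K r : ℕ) (e : ℕ) : Polynomial ℕ :=
  Polynomial.C K * (Polynomial.X + Polynomial.C (e + 1)) + Polynomial.C r

theorem eval_RR (K r e m : ℕ) : (RR K r e).eval m = K * (m + (e + 1)) + r := by
  unfold RR
  simp only [Polynomial.eval_add, Polynomial.eval_mul, Polynomial.eval_C, Polynomial.eval_X]

theorem exists_pad {f : ℕ → ℝ} {δ : ℝ} (hδ : 0 < δ)
    (hf : ∀ᶠ N : ℕ in atTop, (N : ℝ) ^ δ < f N) : ∃ K r : ℕ,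
    ∀ e m M : ℕ, 2 ^ (RR K r e).eval m ≤ M → (2 : ℝ) ^ (3 * (e + m) + 3) ≤ f M := by
  obtain ⟨N₀, hN₀⟩ := Filter.eventually_atTop.1 hf
  obtain ⟨K, hK⟩ := exists_nat_ge (3 / δ)
  refine ⟨K, N₀, fun e m M hM => ?_⟩
  rw [eval_RR] at hM
  have h1 : N₀ ≤ M := by
    have h2 : N₀ < 2 ^ N₀ := Nat.lt_two_pow_self
    have h3 : 2 ^ N₀ ≤ 2 ^ (K * (m + (e + 1)) + N₀) :=
      Nat.pow_le_pow_right (by norm_num) (by omega)
    omega
  refine le_trans ?_ (hN₀ M h1).le
  have h4 : (2 : ℝ) ^ (K * (m + (e + 1))) ≤ M := by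
    have h5 : 2 ^ (K * (m + (e + 1))) ≤ M :=
      le_trans (Nat.pow_le_pow_right (by norm_num) (by omega)) hM
    exact_mod_cast h5
  have h6 : ((2 : ℝ) ^ (K * (m + (e + 1)))) ^ δ ≤ (M : ℝ) ^ δ :=
    Real.rpow_le_rpow (by positivity) h4 hδ.le
  refine le_trans ?_ h6
  rw [← Real.rpow_natCast, ← Real.rpow_natCast, ← Real.rpow_mul (by norm_num)]
  apply Real.rpow_le_rpow_of_exponent_le (by norm_num)
  rw [div_le_iff₀ hδ] at hK
  push_cast
  have h7 : (0 : ℝ) ≤ (m : ℝ) + (e + 1) := by positivity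
  nlinarith [mul_le_mul_of_nonneg_right hK h7]

theorem exists_goodP {n h : ℕ} (hh : n + 1 ≤ h) (P : List Bool → List Bool → Prop)
    (hb : ∀ x : List Bool, x.length = n →
      Nat.card {w : Fin (2 * h) → Bool // ¬ P (List.ofFn w) x} ≤ 2 ^ h) :
    ∃ w : Fin (2 * h) → Bool, ∀ x : List Bool, x.length = n → P (List.ofFn w) x := by
  classical
  by_contra hcon
  push Not at hcon
  let bad : (Fin n → Bool) → Finset (Fin (2 * h) → Bool) := fun x =>
    Finset.univ.filter (fun w => ¬ P (List.ofFn w) (List.ofFn x))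
  have h1 : (Finset.univ : Finset (Fin (2 * h) → Bool)) ⊆ Finset.univ.biUnion bad := by
    intro w _
    obtain ⟨x, hx, hA⟩ := hcon w
    rw [Finset.mem_biUnion]
    subst hx
    refine ⟨fun i => x.get i, Finset.mem_univ _, ?_⟩
    have hx2 : List.ofFn (fun i => x.get i) = x := List.ofFn_get x
    simp only [bad]
    rw [hx2, Finset.mem_filter]
    exact ⟨Finset.mem_univ _, hA⟩
  have h2 : ∀ x, (bad x).card ≤ 2 ^ h := by
    intro x
    have h3 := hb (List.ofFn x) List.length_ofFn
    rw [Nat.card_eq_fintype_card, Fintype.card_subtype] at h3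
    exact h3
  have h3 := (Finset.card_le_card h1).trans Finset.card_biUnion_le
  have h4 : ∑ x : Fin n → Bool, (bad x).card ≤ 2 ^ n * 2 ^ h := by
    refine (Finset.sum_le_sum fun x _ => h2 x).trans (le_of_eq ?_)
    rw [Finset.sum_const, Finset.card_univ]
    simp
  have h5 : (Finset.univ : Finset (Fin (2 * h) → Bool)).card = 2 ^ (2 * h) := by
    rw [Finset.card_univ]
    simp
  rw [h5] at h3
  have h6 : 2 ^ n * 2 ^ h < 2 ^ (2 * h) := by
    rw [← pow_add]
    exact Nat.pow_lt_pow_right (by norm_num) (by omega)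
  omega

/-- the machines -/
abbrev Mac : Type := Alg × ℕ

/-- the questions -/
def QN (g : ℕ → Mac) (e : ℕ) (x : List Bool) (A : Oracle) : Prop :=
  ∃ w : List Bool, w.length ≤ 2 ^ ((g e).2 * (x.length + 1)) ∧
    (g e).1.out A (pairBits w x) = some [true]

/-- the exponents -/
noncomputable def cc (g : ℕ → Mac) (e : ℕ) : ℕ :=
  (g e).1.p.eval 1 + ((g e).2 + 2) * (g e).1.p.natDegree

theorem qn_local (g : ℕ → Mac) (e : ℕ) (x : List Bool) (A : Oracle) (h : QN g e x A) :
    ∃ U : Finset (List Bool), U.card ≤ 2 ^ (pp (cc g) e).eval x.length ∧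
      ∀ A' : Oracle, (∀ u ∈ U, A' u = A u) → QN g e x A' := by
  obtain ⟨w, hw, h⟩ := h
  obtain ⟨U, hU1, hU2⟩ := Pool.Agent.H620R2.Gauge.run_local (g e).1 A (pairBits w x)
    ((g e).1.p.eval (pairBits w x).length) []
  refine ⟨U, hU1.trans ?_, fun A' hA' => ⟨w, hw, ?_⟩⟩
  · set P := (g e).1.p with hP
    set c := (g e).2 with hc
    set n := x.length with hn
    have h1 : (pairBits w x).length ≤ 2 ^ ((c + 2) * (n + 1)) := by
      rw [Pool.Agent.H620R2.Gauge.length_pairBits]
      have h2 : n + 1 ≤ 2 ^ (n + 1) := Nat.lt_two_pow_self.le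
      have h3 : (c + 2) * (n + 1) = c * (n + 1) + (n + 1) + (n + 1) := by ring
      have h4 : 1 ≤ 2 ^ (c * (n + 1)) := Nat.one_le_two_pow
      have h5 : 2 ≤ 2 ^ (n + 1) := by
        calc 2 = 2 ^ 1 := by norm_num
          _ ≤ 2 ^ (n + 1) := Nat.pow_le_pow_right (by norm_num) (by omega)
      rw [h3, pow_add, pow_add]
      generalize 2 ^ (c * (n + 1)) = a at *
      generalize 2 ^ (n + 1) = b at *
      nlinarith [Nat.mul_le_mul h4 h5, Nat.mul_le_mul_left (a * b) h5, Nat.mul_le_mul_left a h5]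
    have h2 : 1 ≤ (pairBits w x).length := by
      rw [Pool.Agent.H620R2.Gauge.length_pairBits]
      omega
    refine (X9.eval_le P _ h2).trans ?_
    unfold pp
    rw [Pool.Agent.H622R2.Exp.YAux.eval_lin]
    calc P.eval 1 * (pairBits w x).length ^ P.natDegree
        ≤ 2 ^ P.eval 1 * (2 ^ ((c + 2) * (n + 1))) ^ P.natDegree :=
          Nat.mul_le_mul Nat.lt_two_pow_self.le (Nat.pow_le_pow_left h1 _)
      _ = 2 ^ (P.eval 1 + (c + 2) * (n + 1) * P.natDegree) := by rw [← pow_mul, ← pow_add]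
      _ ≤ 2 ^ (cc g e * (n + 1)) := by
          apply Nat.pow_le_pow_right (by norm_num)
          unfold cc
          rw [← hP, ← hc]
          have : (P.eval 1 + (c + 2) * P.natDegree) * (n + 1) =
              P.eval 1 * n + P.eval 1 + (c + 2) * (n + 1) * P.natDegree := by ring
          omega
  · have h2 : (g e).1.out A' (pairBits w x) = (g e).1.out A (pairBits w x) := hU2 A' hA'
    rw [h2, h]

theorem exists_ckt {A : Oracle} {ρ : ℕ → ℕ → ℕ} {c : ℕ → ℕ} {e n : ℕ} (Q : List Bool → Prop)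
    (h : ∀ x : List Bool, x.length = n →
      Nat.card {w : Fin (2 * hl (pp c) e n) → Bool //
        ¬ (A (cdn ρ e (true :: pairBits (List.ofFn w) x)) = true ↔ Q x)} ≤
          2 ^ hl (pp c) e n) :
    ∃ C : Circuit, C.size = e + ρ e (me c e n) + me c e n + 3 ∧
      ∀ x : List Bool, x.length = n → (Q x ↔ C.eval A x = true) := by
  obtain ⟨w, hw⟩ := exists_goodP (n := n) (h := hl (pp c) e n) (by rw [hl_pp]; omega)
    (fun w x => A (cdn ρ e (true :: pairBits w x)) = true ↔ Q x) h
  have hwl : (List.ofFn w).length = 2 * hl (pp c) e n := List.length_ofFn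
  set v := List.ofFn w with hv
  set u : List Bool := List.replicate e true ++ false ::
    (List.replicate (ρ e (me c e n)) true ++ false ::
      (true :: (v.flatMap (fun b => [true, b]) ++ [false]))) with hu
  have hz : ∀ x : List Bool, x.length = n → (true :: pairBits v x).length = me c e n := by
    intro x hx
    rw [List.length_cons, Pool.Agent.H620R2.Gauge.length_pairBits, hwl, hx, hl_pp]
    unfold me
    ring
  have hux : ∀ x : List Bool, x.length = n → u ++ x = cdn ρ e (true :: pairBits v x) := by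
    intro x hx
    unfold cdn
    rw [hz x hx, hu]
    unfold pairBits
    simp only [List.append_assoc, List.cons_append, List.nil_append]
  refine ⟨askC u n, ?_, fun x hx => ?_⟩
  · rw [size_askC]
    have h3 := congrArg List.length (hux (List.replicate n false) (by simp))
    rw [List.length_append, length_cdn, hz _ (by simp), List.length_replicate] at h3
    omega
  · have h3 : (askC u n).eval A x = A (u ++ x) := by
      rw [← hx]
      exact eval_askC u A x
    rw [h3, hux x hx]
    exact (hw x hx).symm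

open Classical in
theorem not_null_lin {f : ℕ → ℝ} {δ : ℝ} (hδ : 0 < δ)
    (hf : ∀ᶠ N : ℕ in atTop, (N : ℝ) ^ δ < f N) (O : Set Oracle)
    (hO : ∀ A : Oracle, (∀ L, InNTime Lin A L → LinSize A L) → A ∈ O) : ¬ Null f O := by
  have hne : Nonempty Mac := by
    obtain ⟨M, _⟩ := IsFP.of_poly (A := fun _ => false) (F := fun x => x) Poly.id
    exact ⟨(M, 0)⟩
  obtain ⟨g, hg⟩ := exists_surjective_nat Mac
  obtain ⟨K, r, hρ⟩ := exists_pad hδ hf
  obtain ⟨Φ, hΦ⟩ := exists_stageN (RR K r) (pp (cc g)) (QN g) (qn_local g)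
  refine not_null_ev f Φ {y | ∃ e z, y = cdn (fun e m => (RR K r e).eval m) e z} ?_
    (count_le hρ) O ?_
  · intro B y hy
    exact (hΦ B).1 y fun e z h => hy ⟨e, z, h⟩
  · intro B
    apply hO
    rintro L ⟨V, ⟨M, hM⟩, q, ⟨c', rfl⟩, hV⟩
    obtain ⟨e, he⟩ := hg (M, c')
    have hL : ∀ x, x ∈ L ↔ QN g e x (Φ B) := by
      intro x
      rw [hV x]
      unfold QN
      rw [he, Pool.Agent.H622R2.Exp.YAux.eval_lin]
      simp only [hM, Option.some.injEq]
    set a := 4 * cc g e + 9 with ha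
    set b := 4 * (cc g e + e + 2) + 2 with hb
    refine ⟨(K + 1) * a + (e + (K * (b + (e + 1)) + r) + b + 3), fun n hn => ?_⟩
    obtain ⟨C, hC1, hC2⟩ := exists_ckt (A := Φ B) (ρ := fun e m => (RR K r e).eval m)
      (c := cc g) (e := e) (n := n) (fun x => QN g e x (Φ B)) (fun x hx => by
        subst hx
        exact (hΦ B).2 e x)
    refine ⟨C, ?_, fun x hx => (hL x).trans (hC2 x hx)⟩
    rw [hC1]
    have hme : me (cc g) e n = a * n + b := by
      unfold me
      rw [ha, hb]
      ring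
    simp only [eval_RR]
    rw [hme]
    set D := e + (K * (b + (e + 1)) + r) + b + 3 with hD
    have h1 : e + (K * (a * n + b + (e + 1)) + r) + (a * n + b) + 3 = (K + 1) * a * n + D := by
      rw [hD]
      ring
    have h2 : D ≤ D * n := Nat.le_mul_of_pos_right _ hn
    have h3 : ((K + 1) * a + D) * n = (K + 1) * a * n + D * n := by ring
    rw [h1, h3]
    omega

end Pool.Agent.H249R3.LinC
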